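import Pool.Agent.TH186.AllGenera
import Pool.Agent.TH558.J435
import Pool.Agent.TH558.J436
import Pool.Agent.TH558.J437

/-!
# MP_478959_ag, Q1: the curves of Clifford index 3 with rank-3 Clifford index 8/3

There is none. Bundles in `Cliff_n` are the semistable ones with `h⁰(E) ≥ 2 n` and slope at most
`g - 1` (the definition of the literature on this question).
-/

set_option autoImplicit false

open Pool.Agent.Helper395.CS hiding genus
open Pool.Agent.Helper395.BC
open Pool.Agent.TH186

namespace Pool.Agent.Results.MP_478959_ag.NoCurve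

/-- The curves (function fields `K`) of Clifford index `3` whose rank-`3` Clifford index is `8/3`.
(Curves of Clifford index 3 have genus at least 7.) -/
def EightThirds : Set ((K : Type) ×' (_ : Field K) ×' Algebra ℂ K) :=
  {K | letI := K.2.1; letI := K.2.2;
    IsCurve K.1 ∧ 7 ≤ genus K.1 ∧ IsCliff K.1 1 3 ∧ IsCliff K.1 3 (8 / 3)}

/-- There is no curve of Clifford index `3` with rank-`3` Clifford index `8/3`: every curve of
Clifford index `3` has rank-`3` Clifford index `3`. -/
theorem result :
    (∀ (K : Type) [Field K] [Algebra ℂ K], IsCurve K → 7 ≤ genus K → IsCliff K 1 3 →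
      IsCliff K 3 3) ∧ EightThirds = ∅ := by
  have key : ∀ (K : Type) [Field K] [Algebra ℂ K], IsCurve K → 7 ≤ genus K → IsCliff K 1 3 →
      IsCliff K 3 3 := fun K _ _ hK hg h =>
    Low.cliff3_all hK hg
      (fun hK hg hLB {_} hd h6 hplane L hL hL3 h2 =>
        Pool.Agent.TH558.J435.two_maps hK hg hLB hd h6 hplane L hL hL3 h2)
      (fun hK hg L hL hL3 hU hLB3 {_} hE hd h6 {_ _ _} hQ hX =>
        Pool.Agent.TH558.J436.case_zero hK hg L hL hL3 hU hLB3 hE hd h6 hQ hX)
      (fun hPR hK hg L hL hL3 hL2 {_} hE hd h6 hplane {_ _ _} hQ hX =>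
        Pool.Agent.TH558.J437.case_one hPR hK hg L hL hL3 hL2 hE hd h6 hplane hQ hX) h
  refine ⟨key, Set.eq_empty_iff_forall_notMem.2 ?_⟩
  rintro ⟨K, i1, i2⟩ ⟨hK, hg, h1, h8⟩
  letI := i1
  letI := i2
  have h3 := key K hK hg h1
  have := h3.unique h8
  norm_num at this

end Pool.Agent.Results.MP_478959_ag.NoCurve
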