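import Mathlib

/-!
# Rational roots of Stern polynomials

Full answer of Q1 of MP_32086b_nt.
-/

open Polynomial

namespace Pool.Agent.Q24.Old.RationalRoots

/-- The invariant cone: `u / v` is not in `(-2, -1/2)` and `(u, v) ≠ (0, 0)`. -/
def Inv (u v : ℚ) : Prop := 0 ≤ (u + 2 * v) * (2 * u + v) ∧ ¬ (u = 0 ∧ v = 0)

lemma Inv.symm {u v : ℚ} (h : Inv u v) : Inv v u :=
  ⟨by have := h.1; nlinarith, fun h' => h.2 ⟨h'.2, h'.1⟩⟩

lemma Inv.even {t u v : ℚ} (ht : t < 0) (ht' : -1 / 4 ≤ t) (h : Inv u v) :
    Inv (t * u) (u + v) := by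
  obtain ⟨h1, h2⟩ := h
  refine ⟨?_, fun h' => ?_⟩
  · set w := u + v with hw
    have h3 : 0 ≤ (2 * w - u) * (w + u) := by rw [hw]; nlinarith
    rcases le_total 0 u with hu | hu
    · rcases le_or_gt 0 (2 * w - u) with h4 | h4
      · refine mul_nonneg (by nlinarith) (by nlinarith)
      · have h5 : w + u ≤ 0 := by
          by_contra h5
          push Not at h5
          nlinarith
        refine mul_nonneg_of_nonpos_of_nonpos (by nlinarith) (by nlinarith)
    · rcases le_or_gt (2 * w - u) 0 with h4 | h4
      · refine mul_nonneg_of_nonpos_of_nonpos (by nlinarith) (by nlinarith)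
      · have h5 : 0 ≤ w + u := by
          by_contra h5
          push Not at h5
          nlinarith
        refine mul_nonneg (by nlinarith) (by nlinarith)
  · obtain ⟨h3, h4⟩ := h'
    rcases mul_eq_zero.1 h3 with h5 | h5
    · exact ht.ne h5
    · refine h2 ⟨h5, by rw [h5, zero_add] at h4; exact h4⟩

lemma Inv.odd {t u v : ℚ} (ht : t < 0) (ht' : -1 / 4 ≤ t) (h : Inv u v) :
    Inv (u + v) (t * v) := by
  have := (h.symm.even ht ht').symm
  rwa [add_comm v u] at this

lemma inv_all (b : ℕ → ℚ) (t : ℚ) (ht : t < 0) (ht' : -1 / 4 ≤ t) (h0 : b 0 = 0) (h1 : b 1 = 1)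
    (he : ∀ n, 1 ≤ n → b (2 * n) = t * b n) (ho : ∀ n, 1 ≤ n → b (2 * n + 1) = b n + b (n + 1))
    (n : ℕ) : Inv (b n) (b (n + 1)) := by
  induction n using Nat.strong_induction_on with
  | _ n ih =>
    rcases Nat.even_or_odd' n with ⟨m, hm | hm⟩
    · rcases Nat.eq_zero_or_pos m with h | h
      · subst h
        subst hm
        rw [mul_zero, zero_add, h0, h1]
        exact ⟨by norm_num, by norm_num⟩
      · rw [hm, he m h, ho m h]
        exact (ih m (by omega)).even ht ht'
    · have h2 : b (n + 1) = t * b (m + 1) := by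
        rw [hm, show 2 * m + 1 + 1 = 2 * (m + 1) by ring]
        exact he (m + 1) (by omega)
      have h3 : b n = b m + b (m + 1) := by
        rw [hm]
        rcases Nat.eq_zero_or_pos m with h | h
        · subst h
          simp [h0]
        · exact ho m h
      rw [h2, h3]
      rcases Nat.eq_zero_or_pos m with h | h
      · subst h
        refine Inv.odd ht ht' ?_
        rw [h0, zero_add, h1]
        exact ⟨by norm_num, by norm_num⟩
      · exact (ih m (by omega)).odd ht ht'

lemma ne_zero_of_small (b : ℕ → ℚ) (t : ℚ) (ht : t < 0) (ht' : -1 / 4 ≤ t) (h0 : b 0 = 0)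
    (h1 : b 1 = 1) (he : ∀ n, 1 ≤ n → b (2 * n) = t * b n)
    (ho : ∀ n, 1 ≤ n → b (2 * n + 1) = b n + b (n + 1)) (n : ℕ) : b (2 * n + 1) ≠ 0 := by
  have h := inv_all b t ht ht' h0 h1 he ho n
  have h2 : b (2 * n + 1) = b n + b (n + 1) := by
    rcases Nat.eq_zero_or_pos n with h | h
    · subst h; simp [h0]
    · exact ho n h
  rw [h2]
  intro h3
  have h4 : b (n + 1) = - b n := by linarith
  obtain ⟨h5, h6⟩ := h
  rw [h4] at h5 h6
  have h7 : b n ^ 2 ≤ 0 := by nlinarith
  have h8 : b n = 0 := by
    have := sq_nonneg (b n)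
    exact pow_eq_zero_iff (two_ne_zero) |>.1 (le_antisymm h7 this)
  exact h6 ⟨h8, by rw [h8, neg_zero]⟩

/-- Every rational root of a Stern polynomial `B n`, `n ≥ 1`, is one of `-1, -1/2, -1/3, 0`. -/
theorem result (B : ℕ → ℤ[X]) (h0 : B 0 = 0) (h1 : B 1 = 1)
    (he : ∀ n, 1 ≤ n → B (2 * n) = X * B n)
    (ho : ∀ n, 1 ≤ n → B (2 * n + 1) = B n + B (n + 1))
    (n : ℕ) (hn : 1 ≤ n) (a : ℚ) (ha : aeval a (B n) = 0) :
    a = -1 ∨ a = -1 / 2 ∨ a = -1 / 3 ∨ a = 0 := by
  -- constant terms
  have hc : ∀ m : ℕ, (B (2 * m + 1)).coeff 0 = 1 ∧ (1 ≤ m → (B (2 * m)).coeff 0 = 0) := by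
    intro m
    induction m using Nat.strong_induction_on with
    | _ m ih =>
      have hev : 1 ≤ m → (B (2 * m)).coeff 0 = 0 := by
        intro hm
        rw [he m hm, coeff_X_mul_zero]
      refine ⟨?_, hev⟩
      rcases Nat.eq_zero_or_pos m with h | h
      · subst h
        rw [mul_zero, zero_add, h1, coeff_one_zero]
      · rw [ho m h, coeff_add]
        rcases Nat.even_or_odd' m with ⟨k, hk | hk⟩
        · have e1 : (B m).coeff 0 = 0 := by
            rw [hk]
            exact (ih k (by omega)).2 (by omega)
          have e2 : (B (m + 1)).coeff 0 = 1 := by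
            rw [hk]
            exact (ih k (by omega)).1
          rw [e1, e2, zero_add]
        · have e1 : (B m).coeff 0 = 1 := by
            rw [hk]
            exact (ih k (by omega)).1
          have e2 : (B (m + 1)).coeff 0 = 0 := by
            rw [hk, show 2 * k + 1 + 1 = 2 * (k + 1) by ring]
            rw [he (k + 1) (by omega), coeff_X_mul_zero]
          rw [e1, e2, add_zero]
  -- evaluation at nonnegative rationals
  have hpos : 0 ≤ a → ∀ m : ℕ, 0 ≤ aeval a (B m) ∧ 0 < aeval a (B (2 * m + 1)) := by
    intro ha0 m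
    have hnn : ∀ m : ℕ, 0 ≤ aeval a (B m) := by
      intro m
      induction m using Nat.strong_induction_on with
      | _ m ih =>
        rcases Nat.even_or_odd' m with ⟨k, hk | hk⟩
        · rcases Nat.eq_zero_or_pos k with h | h
          · subst h
            subst hk
            rw [mul_zero, h0]
            simp
          · rw [hk, he k h, map_mul, aeval_X]
            exact mul_nonneg ha0 (ih k (by omega))
        · rcases Nat.eq_zero_or_pos k with h | h
          · subst h
            subst hk
            rw [mul_zero, zero_add, h1]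
            simp
          · rw [hk, ho k h, map_add]
            exact add_nonneg (ih k (by omega)) (ih (k + 1) (by omega))
    refine ⟨hnn m, ?_⟩
    induction m using Nat.strong_induction_on with
    | _ m ih =>
      rcases Nat.eq_zero_or_pos m with h | h
      · subst h
        rw [mul_zero, zero_add, h1]
        simp
      · rw [ho m h, map_add]
        rcases Nat.even_or_odd' m with ⟨k, hk | hk⟩
        · refine add_pos_of_nonneg_of_pos (hnn m) ?_
          rw [hk]
          exact ih k (by omega)
        · refine add_pos_of_pos_of_nonneg ?_ (hnn (m + 1))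
          rw [hk]
          exact ih k (by omega)
  -- reduction to odd index
  have key : ∀ m : ℕ, aeval a (B (2 * m + 1)) = 0 →
      a = -1 ∨ a = -1 / 2 ∨ a = -1 / 3 ∨ a = 0 := by
    intro m hm
    have hneg : a < 0 := by
      by_contra h
      push Not at h
      exact ((hpos h m).2).ne' hm
    obtain ⟨d, hd0, hq⟩ : ∃ d : ℕ, 0 < d ∧ a = -1 / (d : ℚ) := by
      have h := num_dvd_of_is_root (A := ℤ) (K := ℚ) hm
      rw [(hc m).1] at h
      have h2 : (IsFractionRing.num ℤ a : ℚ) / ((IsFractionRing.den ℤ a : ℤ) : ℚ) = a := by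
        have := IsFractionRing.mk'_num_den' ℤ a
        simpa using this
      set p : ℤ := IsFractionRing.num ℤ a
      set q : ℤ := (IsFractionRing.den ℤ a : ℤ)
      have hq0 : q ≠ 0 := by
        intro h3
        rw [h3, Int.cast_zero, div_zero] at h2
        exact hneg.ne h2.symm
      refine ⟨q.natAbs, Int.natAbs_pos.2 hq0, ?_⟩
      have hq1 : ((q.natAbs : ℕ) : ℚ) = |(q : ℚ)| := by
        rw [Nat.cast_natAbs, Int.cast_abs]
      rw [hq1]
      have hq2 : (q : ℚ) ≠ 0 := by exact_mod_cast hq0
      rcases Int.isUnit_iff.1 (isUnit_of_dvd_one h) with h | h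
      · rw [h, Int.cast_one] at h2
        have h3 : (q : ℚ) < 0 := by
          by_contra h4
          push Not at h4
          have : 0 ≤ 1 / (q : ℚ) := by positivity
          rw [h2] at this
          linarith
        rw [abs_of_neg h3, ← h2]
        field_simp
      · rw [h] at h2
        have h3 : 0 < (q : ℚ) := by
          by_contra h4
          push Not at h4
          have h5 : (q : ℚ) < 0 := lt_of_le_of_ne h4 hq2
          have : 0 < ((-1 : ℤ) : ℚ) / (q : ℚ) := div_pos_of_neg_of_neg (by norm_num) h5
          rw [h2] at this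
          linarith
        rw [abs_of_pos h3, ← h2]
        norm_num
    have hden : d < 4 := by
      by_contra h
      push Not at h
      have h4 : (4 : ℚ) ≤ d := by exact_mod_cast h
      have h5 : -1 / 4 ≤ a := by
        rw [hq, neg_div, neg_div, neg_le_neg_iff]
        exact one_div_le_one_div_of_le (by norm_num) h4
      refine ne_zero_of_small (fun n => aeval a (B n)) a hneg h5 (by simp [h0]) (by simp [h1])
        (fun n hn => ?_) (fun n hn => ?_) m hm
      · simp only [he n hn, map_mul, aeval_X]
      · simp only [ho n hn, map_add]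
    interval_cases d
    · left; rw [hq]; norm_num
    · right; left; rw [hq]; norm_num
    · right; right; left; rw [hq]; norm_num
  induction n using Nat.strong_induction_on with
  | _ n ih =>
    rcases Nat.even_or_odd' n with ⟨k, hk | hk⟩
    · rw [hk, he k (by omega), map_mul, aeval_X] at ha
      rcases mul_eq_zero.1 ha with h | h
      · right; right; right; exact h
      · exact ih k (by omega) (by omega) h
    · rw [hk] at ha
      exact key k ha

end Pool.Agent.Q24.Old.RationalRoots
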