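-- import your own Pool.Agent.* helpers here
import Pool.Agent.Helper621.DAP.P_main

set_option autoImplicit false
open Pool.Agent

namespace Pool.Agent.Q24.Old.S06613

/-- The disc algebra (continuous functions on the closed unit disc, holomorphic inside, sup norm) is isomorphic as a complex Banach space to the c_0-sum of countably many copies of itself. -/
theorem result :
    ∀ S : Submodule ℂ (BoundedContinuousFunction (Metric.closedBall (0:ℂ) 1) ℂ),
      (∀ f : BoundedContinuousFunction (Metric.closedBall (0:ℂ) 1) ℂ,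
        f ∈ S ↔ ∃ g : ℂ → ℂ, DifferentiableOn ℂ g (Metric.ball (0:ℂ) 1) ∧
          ∀ x : Metric.closedBall (0:ℂ) 1, f x = g x) →
      Nonempty (S ≃L[ℂ] ZeroAtInftyContinuousMap ℕ S) := by
  intro S hS
  have hSD : S = Pool.Agent.Helper621.DAP.DA := by
    ext f
    rw [hS f]
    constructor
    · rintro ⟨g, h1, h2⟩
      exact ⟨g, h1, fun z => (h2 z).symm⟩
    · rintro ⟨g, h1, h2⟩
      exact ⟨g, h1, fun z => (h2 z).symm⟩
  subst hSD
  exact Pool.Agent.Helper621.DAP.primary_e

end Pool.Agent.Q24.Old.S06613
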