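import Pool.Agent.Y609.WS.Fin2
import Pool.Agent.Y609.WS.Sob

/-!
# MP_08c933_an, Q1: weakly sequentially hypercyclic operators that are not weakly 1-sequentially
hypercyclic

There are such operators on `ℓ_p`, `1 < p < ∞`, on `c_0`, on `L_p (0, 1)` and on `C [0, 1]`, over the
real and the complex numbers, and more generally on every separable Banach space which has a
complemented copy of `ℓ_p` or of an `ℓ_p`-sum or `c_0`-sum of infinitely many copies of a non-Schur
space, or which contains `c_0`. On separable spaces which are isomorphic to such a sum of copies of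
themselves there is one exactly if the space does not have the Schur property. The operator of the
library `Pool.Agent.Y609.WS` does more: the weak limits of the sequences of one of its orbits are
norm dense, so that the sequential closure of the orbit is reached in two steps.
-/

set_option autoImplicit false

open Filter Topology
open scoped ENNReal ZeroAtInfty

namespace Pool.Agent.Results.MP_08c933_an.TwoSteps

section defs

variable (𝕜 : Type) [RCLike 𝕜] {X : Type} [NormedAddCommGroup X] [NormedSpace 𝕜 X]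

/-- The sequence `u` converges weakly to `y`. -/
def WeaklyTendsto (u : ℕ → X) (y : X) : Prop :=
  ∀ φ : X →L[𝕜] 𝕜, Tendsto (fun k => φ (u k)) atTop (𝓝 (φ y))

/-- `M` contains the weak limit of every weakly convergent sequence of its elements. -/
def IsWeaklySeqClosed (M : Set X) : Prop :=
  ∀ (u : ℕ → X) (y : X), (∀ k, u k ∈ M) → WeaklyTendsto 𝕜 u y → y ∈ M

/-- The sequential closure of `A` for the weak topology: the smallest sequentially closed set
containing `A`. -/
def seqClosure (A : Set X) : Set X := {y | ∀ M : Set X, IsWeaklySeqClosed 𝕜 M → A ⊆ M → y ∈ M}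

/-- The 1-sequential closure of `A`: the weak limits of the sequences of elements of `A`. -/
def oneSeqClosure (A : Set X) : Set X := {y | ∃ u : ℕ → X, (∀ k, u k ∈ A) ∧ WeaklyTendsto 𝕜 u y}

/-- The orbit of `x`. -/
def orbit (T : X →L[𝕜] X) (x : X) : Set X := Set.range fun n : ℕ => (T ^ n) x

/-- `T` is weakly sequentially hypercyclic. -/
def IsWeaklySequentiallyHypercyclic (T : X →L[𝕜] X) : Prop :=
  ∃ x : X, seqClosure 𝕜 (orbit 𝕜 T x) = Set.univ

/-- `T` is weakly 1-sequentially hypercyclic. -/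
def IsWeaklyOneSequentiallyHypercyclic (T : X →L[𝕜] X) : Prop :=
  ∃ x : X, oneSeqClosure 𝕜 (orbit 𝕜 T x) = Set.univ

/-- There is a bounded operator on `X` which is weakly sequentially hypercyclic, even with a dense
1-sequential closure of an orbit, but not weakly 1-sequentially hypercyclic. -/
def Example (X : Type) [NormedAddCommGroup X] [NormedSpace 𝕜 X] : Prop :=
  ∃ T : X →L[𝕜] X, IsWeaklySequentiallyHypercyclic 𝕜 T ∧
    ¬ IsWeaklyOneSequentiallyHypercyclic 𝕜 T ∧ ∃ x, Dense (oneSeqClosure 𝕜 (orbit 𝕜 T x))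

/-- `Y` is isomorphic to a complemented subspace of `X`. -/
def ComplementedIn (Y X : Type) [NormedAddCommGroup Y] [NormedSpace 𝕜 Y] [NormedAddCommGroup X]
    [NormedSpace 𝕜 X] : Prop :=
  ∃ (i : Y →L[𝕜] X) (r : X →L[𝕜] Y), ∀ y, r (i y) = y

/-- The Schur property. -/
def Schur (X : Type) [NormedAddCommGroup X] [NormedSpace 𝕜 X] : Prop :=
  ∀ (u : ℕ → X) (y : X), WeaklyTendsto 𝕜 u y → Tendsto u atTop (𝓝 y)

/-- `Y` is isomorphic to a closed subspace of `X`. -/
def EmbedsIn (Y X : Type) [NormedAddCommGroup Y] [NormedSpace 𝕜 Y] [NormedAddCommGroup X]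
    [NormedSpace 𝕜 X] : Prop :=
  ∃ (i : Y →L[𝕜] X) (δ : ℝ), 0 < δ ∧ ∀ y, δ * ‖y‖ ≤ ‖i y‖

end defs

section basic

variable {𝕜 : Type} [RCLike 𝕜] {X : Type} [NormedAddCommGroup X] [NormedSpace 𝕜 X]

lemma example_of_found (h : Pool.Agent.Y609.WS.Found2 𝕜 X) : Example 𝕜 X := by
  obtain ⟨T, ⟨x, hx⟩, hn⟩ := h
  have hd : Dense (oneSeqClosure 𝕜 (orbit 𝕜 T x)) := by
    refine hx.mono ?_
    rintro w ⟨n, hw⟩
    exact ⟨fun k => (T ^ n k) x, fun k => ⟨n k, rfl⟩, hw⟩
  refine ⟨T, ⟨x, Set.eq_univ_of_forall fun y M hM hA => ?_⟩, ?_, x, hd⟩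
  · obtain ⟨v, hv, hvy⟩ := mem_closure_iff_seq_limit.1 (hd y)
    refine hM v y (fun k => ?_) fun φ => (φ.continuous.tendsto _).comp hvy
    obtain ⟨u, hu, hw⟩ := hv k
    exact hM u (v k) (fun j => hA (hu j)) hw
  · rintro ⟨x', hx'⟩
    apply hn x'
    intro y
    obtain ⟨u, hu, hw⟩ := (Set.eq_univ_iff_forall.1 hx' y)
    choose n hn' using hu
    refine ⟨n, fun φ => (hw φ).congr fun k => ?_⟩
    show φ (u k) = φ ((T ^ n k) x')
    rw [← hn' k]

lemma separable_lp {p : ℝ≥0∞} [Fact (1 ≤ p)] (hp : p ≠ ∞) :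
    TopologicalSpace.SeparableSpace (lp (fun _ : ℕ => 𝕜) p) := by
  set s : Set (lp (fun _ : ℕ => 𝕜) p) :=
    Set.range fun i : ℕ => lp.single (E := fun _ : ℕ => 𝕜) p i (1 : 𝕜) with hs
  have h1 : TopologicalSpace.IsSeparable s := (Set.countable_range _).isSeparable
  have h2 : TopologicalSpace.IsSeparable
      (closure (Submodule.span 𝕜 s : Set (lp (fun _ : ℕ => 𝕜) p))) :=
    (h1.span (R := 𝕜)).closure
  have h3 : closure (Submodule.span 𝕜 s : Set (lp (fun _ : ℕ => 𝕜) p)) = Set.univ := by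
    refine Set.eq_univ_of_forall fun f => ?_
    refine mem_closure_of_tendsto (lp.hasSum_single hp f) (Eventually.of_forall fun t => ?_)
    refine Submodule.sum_mem _ fun i _ => ?_
    have : lp.single (E := fun _ : ℕ => 𝕜) p i (f i) =
        f i • lp.single (E := fun _ : ℕ => 𝕜) p i (1 : 𝕜) := by
      rw [← lp.single_smul]; simp
    rw [this]
    exact Submodule.smul_mem _ _ (Submodule.subset_span ⟨i, rfl⟩)
  rw [h3] at h2
  exact TopologicalSpace.isSeparable_univ_iff.1 h2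

end basic

/-- Real or complex scalars, `X` a separable Banach space. There is a bounded operator on `X` which
is weakly sequentially hypercyclic but not weakly 1-sequentially hypercyclic if `X` has a
complemented copy of `ℓ_p`, `1 < p < ∞`, or of an `ℓ_p`-sum or `c_0`-sum of infinitely many copies of
a space without the Schur property, or if `X` contains `c_0`. There is none if `X` has the Schur
property. So if `X` is isomorphic to the `ℓ_p`-sum or `c_0`-sum of infinitely many copies of itself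
then there is one if and only if `X` does not have the Schur property. In particular there is one on
`ℓ_p`, `1 < p < ∞`. -/
theorem result (𝕜 : Type) [RCLike 𝕜] :
    (∀ (p : ℝ≥0∞) [Fact (1 ≤ p)], 1 < p → p ≠ ∞ → Example 𝕜 (lp (fun _ : ℕ => 𝕜) p)) ∧
    ∀ (X : Type) [NormedAddCommGroup X] [NormedSpace 𝕜 X] [CompleteSpace X]
      [TopologicalSpace.SeparableSpace X],
      ((∃ (H : Type) (_ : NormedAddCommGroup H) (_ : NormedSpace 𝕜 H) (_ : CompleteSpace H),
          ¬ Schur 𝕜 H ∧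
          ((∃ (p : ℝ≥0∞) (_ : Fact (1 ≤ p)), p ≠ ∞ ∧
              ComplementedIn 𝕜 (lp (fun _ : ℕ => H) p) X) ∨ ComplementedIn 𝕜 C₀(ℕ, H) X)) →
        Example 𝕜 X) ∧
      ((∃ (p : ℝ≥0∞) (_ : Fact (1 ≤ p)), 1 < p ∧ p ≠ ∞ ∧
          ComplementedIn 𝕜 (lp (fun _ : ℕ => 𝕜) p) X) → Example 𝕜 X) ∧
      (EmbedsIn 𝕜 C₀(ℕ, 𝕜) X → Example 𝕜 X) ∧
      (((∃ (p : ℝ≥0∞) (_ : Fact (1 ≤ p)), p ≠ ∞ ∧ Nonempty (X ≃L[𝕜] lp (fun _ : ℕ => X) p)) ∨
          Nonempty (X ≃L[𝕜] C₀(ℕ, X))) →
        ((∃ T : X →L[𝕜] X, IsWeaklySequentiallyHypercyclic 𝕜 T ∧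
          ¬ IsWeaklyOneSequentiallyHypercyclic 𝕜 T) ↔ ¬ Schur 𝕜 X)) := by
  have hlp : ∀ (X : Type) [NormedAddCommGroup X] [NormedSpace 𝕜 X] [CompleteSpace X]
      [TopologicalSpace.SeparableSpace X], (∃ (p : ℝ≥0∞) (_ : Fact (1 ≤ p)), 1 < p ∧ p ≠ ∞ ∧
          ComplementedIn 𝕜 (lp (fun _ : ℕ => 𝕜) p) X) → Example 𝕜 X := by
    rintro X _ _ _ _ ⟨p, hp1, h1, hp, hc⟩
    exact example_of_found (Pool.Agent.Y609.WS.found2_lp h1 hp hc)
  refine ⟨?_, fun X _ _ _ _ => ?_⟩
  · intro p hp1 h1 hp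
    haveI : TopologicalSpace.SeparableSpace (lp (fun _ : ℕ => 𝕜) p) :=
      separable_lp hp
    exact hlp _ ⟨p, hp1, h1, hp, ContinuousLinearMap.id 𝕜 _, ContinuousLinearMap.id 𝕜 _,
      fun _ => rfl⟩
  have h1 : (∃ (H : Type) (_ : NormedAddCommGroup H) (_ : NormedSpace 𝕜 H) (_ : CompleteSpace H),
        ¬ Schur 𝕜 H ∧
        ((∃ (p : ℝ≥0∞) (_ : Fact (1 ≤ p)), p ≠ ∞ ∧
            ComplementedIn 𝕜 (lp (fun _ : ℕ => H) p) X) ∨ ComplementedIn 𝕜 C₀(ℕ, H) X)) →
      Example 𝕜 X := by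
    rintro ⟨H, _, _, _, hH, h⟩
    unfold Schur at hH
    push Not at hH
    obtain ⟨u, v, hw, hn⟩ := hH
    rcases h with ⟨p, hp1, hp, hc⟩ | hc
    · exact example_of_found
        (Pool.Agent.Y609.WS.found2_of_sum (Pool.Agent.Y609.WS.lpSum hp) hc u v hw hn)
    · exact example_of_found
        (Pool.Agent.Y609.WS.found2_of_sum (Pool.Agent.Y609.WS.c0Sum 𝕜 H) hc u v hw hn)
  refine ⟨h1, hlp X, ?_, fun h => ⟨?_, fun hS => ?_⟩⟩
  · rintro ⟨i, δ, hδ, hi⟩
    exact example_of_found (Pool.Agent.Y609.WS.found2_c0 (Pool.Agent.Y609.WS.sobczyk i hδ hi))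
  · rintro ⟨T, ⟨x, hT⟩, hn⟩ hS
    refine hn ⟨x, Set.eq_univ_of_forall fun y => ?_⟩
    have hd : closure (orbit 𝕜 T x) = Set.univ := by
      refine Set.eq_univ_of_forall fun z => ?_
      refine Set.eq_univ_iff_forall.1 hT z _ ?_ subset_closure
      intro u w hu hw
      exact isClosed_closure.mem_of_tendsto (hS u w hw) (Eventually.of_forall hu)
    obtain ⟨v, hv, hvy⟩ := mem_closure_iff_seq_limit.1
      (show y ∈ closure (orbit 𝕜 T x) by rw [hd]; trivial)
    exact ⟨v, hv, fun φ => (φ.continuous.tendsto _).comp hvy⟩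
  · obtain ⟨T, h2, h3, -⟩ : Example 𝕜 X := by
      apply h1
      refine ⟨X, inferInstance, inferInstance, inferInstance, hS, ?_⟩
      rcases h with ⟨p, hp1, hp, ⟨e⟩⟩ | h'
      · exact Or.inl ⟨p, hp1, hp, e.symm, e, fun y => e.apply_symm_apply y⟩
      · obtain ⟨e⟩ := h'
        exact Or.inr ⟨e.symm, e, fun y => e.apply_symm_apply y⟩
    exact ⟨T, h2, h3⟩

end Pool.Agent.Results.MP_08c933_an.TwoSteps
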